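import Pool.Agent.Q151.IFull.NonFG
import Pool.Agent.Helper180.FreeMetric

/-!
Embedding, finite presentation, and absence of `F_2 × ℤ²` (`MP_d567b2_al`).
-/

namespace Q151.IFull

open FreeGroup (of)

/-- shift automorphisms of the free group on `ℤ` -/
def shiftAut : Multiplicative ℤ →* MulAut (FreeGroup ℤ) where
  toFun n := FreeGroup.freeGroupCongr (Equiv.addLeft n.toAdd)
  map_one' := by
    apply MulEquiv.toMonoidHom_injective
    ext x
    simp
  map_mul' m n := by
    apply MulEquiv.toMonoidHom_injective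
    ext x
    simp [add_assoc]

/-- the embedding of a free group of infinite rank -/
def iota : FreeGroup ℤ →* FreeGroup (Fin 2) :=
  FreeGroup.lift fun n => of 0 ^ n * of 1 * (of 0 ^ n)⁻¹

/-- to the semidirect product -/
def toSemi : FreeGroup (Fin 2) →* FreeGroup ℤ ⋊[shiftAut] Multiplicative ℤ :=
  FreeGroup.lift ![SemidirectProduct.inr (Multiplicative.ofAdd 1), SemidirectProduct.inl (of 0)]

theorem iota_injective : Function.Injective iota := by
  have h : toSemi.comp iota = SemidirectProduct.inl := by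
    apply FreeGroup.ext_hom
    intro n
    simp only [MonoidHom.comp_apply, iota, FreeGroup.lift_apply_of, map_mul, map_inv, map_zpow]
    have h0 : toSemi (of 0) = SemidirectProduct.inr (Multiplicative.ofAdd 1) := by simp [toSemi]
    have h1 : toSemi (of 1) = SemidirectProduct.inl (of 0) := by simp [toSemi]
    rw [h0, h1, ← map_zpow, ← map_inv, ← SemidirectProduct.inl_aut]
    congr 1
    change FreeGroup.freeGroupCongr (Equiv.addLeft (Multiplicative.toAdd
      (Multiplicative.ofAdd (1 : ℤ) ^ n))) (of 0) = of n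
    simp
  intro x y hxy
  have := congrArg toSemi hxy
  have e : ∀ z, toSemi (iota z) = SemidirectProduct.inl z := fun z =>
    congrArg (fun f => f z) h
  rw [e, e] at this
  exact SemidirectProduct.inl_injective this

theorem exists_emb (α : Type) [Finite α] :
    ∃ f : FreeGroup α →* FreeGroup (Fin 2), Function.Injective f := by
  obtain ⟨n, ⟨e⟩⟩ := Finite.exists_equiv_fin α
  have hj : Function.Injective (fun x : α => ((e x : ℕ) : ℤ)) := by
    intro x y h
    apply e.injective
    apply Fin.ext
    have h' : ((e x : ℕ) : ℤ) = ((e y : ℕ) : ℤ) := h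
    exact_mod_cast h'
  exact ⟨iota.comp (FreeGroup.map fun x : α => ((e x : ℕ) : ℤ)),
    iota_injective.comp (FreeGroup.map_injective hj)⟩

/-- finite generation transfers along injective homs -/
theorem fg_map_iff {G H : Type*} [Group G] [Group H] (f : G →* H) (hf : Function.Injective f)
    (K : Subgroup G) : (K.map f).FG ↔ K.FG := by
  constructor
  · intro h
    rw [← Group.fg_iff_subgroup_fg] at h ⊢
    exact Group.fg_of_surjective (f := (K.equivMapOfInjective f hf).symm.toMonoidHom)
      (K.equivMapOfInjective f hf).symm.surjective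
  · classical
    rintro ⟨S, hS⟩
    exact ⟨S.image f, by rw [Finset.coe_image, ← MonoidHom.map_closure, hS]⟩

theorem map_biInf {G H : Type*} [Group G] [Group H] (f : G →* H) (hf : Function.Injective f)
    {ι : Type*} (I : Finset ι) (hI : I.Nonempty) (K : ι → Subgroup G) :
    (⨅ i ∈ I, (K i).map f) = (⨅ i ∈ I, K i).map f := by
  ext x
  simp only [Subgroup.mem_iInf, Subgroup.mem_map]
  constructor
  · intro h
    obtain ⟨i0, hi0⟩ := hI
    obtain ⟨y, hy, rfl⟩ := h i0 hi0
    refine ⟨y, fun i hi => ?_, rfl⟩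
    obtain ⟨z, hz, e⟩ := h i hi
    rwa [← hf e]
  · rintro ⟨y, hy, rfl⟩ i hi
    exact ⟨y, hy i hi, rfl⟩

/-- `F_2 × F_2` -/
abbrev FF := FreeGroup (Fin 2) × FreeGroup (Fin 2)

theorem realize_FF {k : ℕ} (c : Finset (Fin k) → Prop) :
    ∃ H : Fin k → Subgroup FF, ∀ I : Finset (Fin k), I.Nonempty → ((⨅ i ∈ I, H i).FG ↔ ¬ c I) := by
  obtain ⟨f, hf⟩ := exists_emb (BA k)
  obtain ⟨g, hg⟩ := exists_emb (BY k)
  have hfg : Function.Injective (f.prodMap g) := by
    intro x y h
    have h1 := congrArg Prod.fst h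
    have h2 := congrArg Prod.snd h
    exact Prod.ext (hf h1) (hg h2)
  refine ⟨fun i => (HH c i).map (f.prodMap g), fun I hI => ?_⟩
  rw [map_biInf _ hfg I hI, fg_map_iff _ hfg]
  exact realize c I hI

/-- relations -/
def rels : Set (FreeGroup (Fin 2 ⊕ Fin 2)) :=
  Set.range fun p : Fin 2 × Fin 2 =>
    of (Sum.inl p.1) * of (Sum.inr p.2) * (of (Sum.inl p.1))⁻¹ * (of (Sum.inr p.2))⁻¹

instance : Finite rels := Set.finite_range _

theorem fp_FF : Group.IsFinitelyPresented FF := by
  let P := PresentedGroup rels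
  let i1 : FreeGroup (Fin 2) →* P := FreeGroup.lift fun a => PresentedGroup.of (Sum.inl a)
  let i2 : FreeGroup (Fin 2) →* P := FreeGroup.lift fun a => PresentedGroup.of (Sum.inr a)
  have hrel : ∀ a b : Fin 2, Commute (PresentedGroup.of (rels := rels) (Sum.inl a))
      (PresentedGroup.of (rels := rels) (Sum.inr b)) := by
    intro a b
    have h : (PresentedGroup.mk rels) (of (Sum.inl a) * of (Sum.inr b) * (of (Sum.inl a))⁻¹ *
        (of (Sum.inr b))⁻¹) = 1 := by
      apply PresentedGroup.mk_eq_one_iff.mpr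
      exact Subgroup.subset_normalClosure ⟨(a, b), rfl⟩
    rw [map_mul, map_mul, map_mul, map_inv, map_inv] at h
    change PresentedGroup.of _ * PresentedGroup.of _ = PresentedGroup.of _ * PresentedGroup.of _
    rw [mul_inv_eq_one, mul_inv_eq_iff_eq_mul] at h
    exact h
  have hc1 : ∀ (a : Fin 2) (y : FreeGroup (Fin 2)), Commute (PresentedGroup.of (rels := rels) (Sum.inl a)) (i2 y) := by
    intro a y
    induction y using FreeGroup.induction_on with
    | C1 => rw [map_one]; exact Commute.one_right _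
    | of b =>
      have : i2 (of b) = PresentedGroup.of (Sum.inr b) := by simp [i2]
      rw [this]; exact hrel a b
    | inv_of b h => rw [map_inv]; exact h.inv_right
    | mul x y hx hy => rw [map_mul]; exact hx.mul_right hy
  have hcomm : ∀ x y : FreeGroup (Fin 2), Commute (i1 x) (i2 y) := by
    intro x y
    induction x using FreeGroup.induction_on with
    | C1 => rw [map_one]; exact Commute.one_left _
    | of b =>
      have : i1 (of b) = PresentedGroup.of (Sum.inl b) := by simp [i1]
      rw [this]; exact hc1 b y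
    | inv_of b h => rw [map_inv]; exact h.inv_left
    | mul u v hu hv => rw [map_mul]; exact hu.mul_left hv
  let F : FF →* P := MonoidHom.noncommCoprod i1 i2 hcomm
  let g0 : Fin 2 ⊕ Fin 2 → FF := fun s => match s with
    | Sum.inl a => (of a, 1)
    | Sum.inr b => (1, of b)
  have hg0 : ∀ r ∈ rels, FreeGroup.lift g0 r = 1 := by
    rintro _ ⟨⟨a, b⟩, rfl⟩
    simp [g0]
  let Gm : P →* FF := PresentedGroup.toGroup hg0
  have hGm : ∀ s, Gm (PresentedGroup.of s) = g0 s := fun s => PresentedGroup.toGroup.of hg0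
  have hi1 : ∀ a, i1 (of a) = PresentedGroup.of (Sum.inl a) := fun a => by simp [i1]
  have hi2 : ∀ a, i2 (of a) = PresentedGroup.of (Sum.inr a) := fun a => by simp [i2]
  have h1 : Gm.comp F = MonoidHom.id FF := by
    apply MonoidHom.ext
    rintro ⟨x, y⟩
    change Gm (i1 x * i2 y) = (x, y)
    have e1 : Gm.comp i1 = MonoidHom.inl _ _ := by
      apply FreeGroup.ext_hom
      intro a
      rw [MonoidHom.comp_apply, hi1, hGm]; rfl
    have e2 : Gm.comp i2 = MonoidHom.inr _ _ := by
      apply FreeGroup.ext_hom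
      intro a
      rw [MonoidHom.comp_apply, hi2, hGm]; rfl
    rw [map_mul]
    have e1' : Gm (i1 x) = (x, 1) := congrArg (fun f => f x) e1
    have e2' : Gm (i2 y) = (1, y) := congrArg (fun f => f y) e2
    rw [e1', e2']; simp
  have h2 : F.comp Gm = MonoidHom.id P := by
    apply PresentedGroup.ext
    rintro (a | b)
    · change F (Gm (PresentedGroup.of (Sum.inl a))) = _
      rw [hGm]
      change i1 (of a) * i2 1 = PresentedGroup.of (Sum.inl a)
      rw [map_one, mul_one, hi1]
    · change F (Gm (PresentedGroup.of (Sum.inr b))) = _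
      rw [hGm]
      change i1 1 * i2 (of b) = PresentedGroup.of (Sum.inr b)
      rw [map_one, one_mul, hi2]
  have e : P ≃* FF := MonoidHom.toMulEquiv Gm F h2 h1
  haveI : Group.IsFinitelyPresented P := inferInstance
  exact Group.IsFinitelyPresented.equiv e

/-- commuting elements in a free group -/
theorem no_Z2 {x y : FreeGroup (Fin 2)} (h : x * y = y * x)
    (hinj : ∀ m n : ℤ, x ^ m * y ^ n = 1 → m = 0 ∧ n = 0) : False := by
  have hx : x ≠ 1 := by
    rintro rfl
    have := hinj 1 0 (by simp)
    simp at this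
  obtain ⟨g, -, hg⟩ := Pool.Agent.Helper180.FreeMetric.centralizer_cyclic x hx
  obtain ⟨n, hn⟩ := hg x rfl
  obtain ⟨m, hm⟩ := hg y h.symm
  have h1 : x ^ m * y ^ (-n) = 1 := by
    rw [hn, hm, ← zpow_mul, ← zpow_mul, ← zpow_add]
    have : n * m + m * -n = 0 := by ring
    rw [this, zpow_zero]
  obtain ⟨h2, h3⟩ := hinj _ _ h1
  have h4 : n = 0 := by omega
  rw [h4, zpow_zero] at hn
  exact hx hn

/-- `F_2 × F_2` does not contain `F_2 × ℤ²`. -/
theorem no_F2Z2 (f : FreeGroup (Fin 2) × Multiplicative (Fin 2 → ℤ) →* FF) :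
    ¬ Function.Injective f := by
  intro hf
  let a : FreeGroup (Fin 2) × Multiplicative (Fin 2 → ℤ) := (of 0, 1)
  let b : FreeGroup (Fin 2) × Multiplicative (Fin 2 → ℤ) := (of 1, 1)
  let e0 : FreeGroup (Fin 2) × Multiplicative (Fin 2 → ℤ) := (1, Multiplicative.ofAdd (Pi.single 0 1))
  let e1 : FreeGroup (Fin 2) × Multiplicative (Fin 2 → ℤ) := (1, Multiplicative.ofAdd (Pi.single 1 1))
  have hab : f a * f b ≠ f b * f a := by
    intro h
    rw [← map_mul, ← map_mul] at h
    have h1 := congrArg Prod.fst (hf h)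
    have h2 : (of 0 * of 1 : FreeGroup (Fin 2)) = of 1 * of 0 := h1
    have h3 := congrArg FreeGroup.toWord h2
    revert h3
    decide
  have hce : ∀ (g : FreeGroup (Fin 2)) (z : Multiplicative (Fin 2 → ℤ)),
      f (g, 1) * f (1, z) = f (1, z) * f (g, 1) := by
    intro g z
    rw [← map_mul, ← map_mul]; simp
  have hzz : ∀ m n : ℤ, f e0 ^ m * f e1 ^ n = 1 → m = 0 ∧ n = 0 := by
    intro m n h
    rw [← map_zpow, ← map_zpow, ← map_mul, ← map_one f] at h
    have h1 := congrArg Prod.snd (hf h)
    have h2 : (m • (Pi.single 0 1 : Fin 2 → ℤ) + n • (Pi.single 1 1 : Fin 2 → ℤ)) = 0 := h1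
    have h3 := congrFun h2 0
    have h4 := congrFun h2 1
    simp at h3 h4
    exact ⟨h3, h4⟩
  have h01 : f e0 * f e1 = f e1 * f e0 := by
    rw [← map_mul, ← map_mul]; congr 1
    exact Prod.ext rfl (mul_comm _ _)
  -- projections
  have key : ∀ (π : FF →* FreeGroup (Fin 2)), π (f a) * π (f b) ≠ π (f b) * π (f a) →
      π (f e0) = 1 ∧ π (f e1) = 1 := by
    intro π hne
    constructor
    · by_contra h
      apply hne
      apply Pool.Agent.Helper180.FreeMetric.comm_trans h
      · rw [← map_mul π, ← map_mul π]; exact congrArg π (hce _ _)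
      · rw [← map_mul π, ← map_mul π]; exact congrArg π (hce _ _)
    · by_contra h
      apply hne
      apply Pool.Agent.Helper180.FreeMetric.comm_trans h
      · rw [← map_mul π, ← map_mul π]; exact congrArg π (hce _ _)
      · rw [← map_mul π, ← map_mul π]; exact congrArg π (hce _ _)
  have hcase : (f a).1 * (f b).1 ≠ (f b).1 * (f a).1 ∨ (f a).2 * (f b).2 ≠ (f b).2 * (f a).2 := by
    by_contra hno
    push Not at hno
    exact hab (Prod.ext hno.1 hno.2)
  rcases hcase with h | h
  · obtain ⟨k0, k1⟩ := key (MonoidHom.fst _ _) h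
    apply no_Z2 (x := (f e0).2) (y := (f e1).2) (congrArg Prod.snd h01)
    intro m n hmn
    apply hzz
    apply Prod.ext
    · have k0' : (f e0).1 = 1 := k0
      have k1' : (f e1).1 = 1 := k1
      simp [k0', k1']
    · simpa using hmn
  · obtain ⟨k0, k1⟩ := key (MonoidHom.snd _ _) h
    apply no_Z2 (x := (f e0).1) (y := (f e1).1) (congrArg Prod.fst h01)
    intro m n hmn
    apply hzz
    apply Prod.ext
    · simpa using hmn
    · have k0' : (f e0).2 = 1 := k0
      have k1' : (f e1).2 = 1 := k1
      simp [k0', k1']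

end Q151.IFull
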