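import Pool.Agent.Q151.IFull.Real

/-!
The non finitely generated case (`MP_d567b2_al`).
-/

namespace Q151.IFull

open FreeGroup (of)

/-- shift of the first coordinate -/
def permA : Equiv.Perm (ℤ × ℤ) where
  toFun p := (p.1 + 1, p.2)
  invFun p := (p.1 - 1, p.2)
  left_inv p := by simp
  right_inv p := by simp

/-- shift of the second coordinate on the line `{0} × ℤ` -/
def permB : Equiv.Perm (ℤ × ℤ) where
  toFun p := if p.1 = 0 then (p.1, p.2 + 1) else p
  invFun p := if p.1 = 0 then (p.1, p.2 - 1) else p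
  left_inv := by
    rintro ⟨a, b⟩
    by_cases h : a = 0 <;> simp [h]
  right_inv := by
    rintro ⟨a, b⟩
    by_cases h : a = 0 <;> simp [h]

section Main

variable {k : ℕ} (c : Finset (Fin k) → Prop)

open Classical in
/-- action on `ℤ × ℤ` through `a_I`, `b_I` -/
noncomputable def act (I : Finset (Fin k)) : FreeGroup (BA k) →* Equiv.Perm (ℤ × ℤ) :=
  FreeGroup.lift fun x => if x.1 = I then (if x.2 = false then permA else permB) else 1

open Classical in
/-- exponent of `q_I` -/
noncomputable def ex (I : Finset (Fin k)) : FreeGroup (Finset (Fin k)) →* Multiplicative ℤ :=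
  FreeGroup.lift fun J => if J = I then Multiplicative.ofAdd 1 else 1

open Classical in
/-- shift hom -/
noncomputable def sh (I : Finset (Fin k)) : FreeGroup (BA k) →* Multiplicative ℤ :=
  FreeGroup.lift fun x => if x.1 = I ∧ x.2 = false then Multiplicative.ofAdd 1 else 1

/-- behaviour far away -/
def Far (I : Finset (Fin k)) (N : ℤ) (w : FreeGroup (BA k)) : Prop :=
  ∀ n x : ℤ, N < |n| → act I w (n, x) = (n + (sh I w).toAdd, x)

theorem far_mul {I : Finset (Fin k)} {N M : ℤ} {v w : FreeGroup (BA k)} (hv : Far I N v)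
    (hw : Far I M w) : Far I (max M (N + |(sh I w).toAdd|)) (v * w) := by
  intro n x hn
  have h1 : M < |n| := lt_of_le_of_lt (le_max_left _ _) hn
  have h2 : N + |(sh I w).toAdd| < |n| := lt_of_le_of_lt (le_max_right _ _) hn
  rw [map_mul, Equiv.Perm.mul_apply, hw n x h1]
  have h3 : N < |n + (sh I w).toAdd| := by
    have := abs_sub_abs_le_abs_sub n (-(sh I w).toAdd)
    rw [abs_neg, sub_neg_eq_add] at this
    linarith
  rw [hv _ x h3, map_mul, toAdd_mul]
  congr 1
  ring

theorem far_inv {I : Finset (Fin k)} {N : ℤ} {w : FreeGroup (BA k)} (hw : Far I N w) :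
    Far I (N + |(sh I w).toAdd|) w⁻¹ := by
  intro n x hn
  rw [map_inv, Equiv.Perm.inv_eq_iff_eq, map_inv, toAdd_inv]
  have h3 : N < |n + -(sh I w).toAdd| := by
    have := abs_sub_abs_le_abs_sub n ((sh I w).toAdd)
    rw [← sub_eq_add_neg]
    linarith
  rw [hw _ x h3]
  congr 1
  ring

theorem exists_far (I : Finset (Fin k)) (w : FreeGroup (BA k)) : ∃ N, Far I N w := by
  induction w using FreeGroup.induction_on with
  | C1 => exact ⟨0, fun n x _ => by simp⟩
  | of y =>
    refine ⟨0, fun n x hn => ?_⟩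
    have hn0 : n ≠ 0 := by rintro rfl; simp at hn
    by_cases h1 : y.1 = I
    · cases h2 : y.2
      · simp [act, sh, h1, h2, permA]
      · simp [act, sh, h1, h2, permB, hn0]
    · simp [act, sh, h1]
  | inv_of y ih =>
    obtain ⟨N, hN⟩ := ih
    exact ⟨_, far_inv hN⟩
  | mul v w hv hw =>
    obtain ⟨N, hN⟩ := hv
    obtain ⟨M, hM⟩ := hw
    exact ⟨_, far_mul hN hM⟩

theorem far_mono {I : Finset (Fin k)} {N M : ℤ} (h : N ≤ M) {w : FreeGroup (BA k)} (hw : Far I N w) :
    Far I M w := fun n x hn => hw n x (lt_of_le_of_lt h hn)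

/-- elements of the fibre product have shift zero -/
theorem sh_zero (I : Finset (Fin k)) (μ : Fin k) (hμ : IsMn I μ)
    {p : FreeGroup (BA k) × FreeGroup (BY k)} (hp : p ∈ Fib (SAI c I) (SYI c I) μ) :
    sh I p.1 = 1 := by
  obtain ⟨h1, h2, h3⟩ := hp
  have e1 : sh I p.1 = ((ex I).comp (chi μ)) p.1 := by
    apply eq_of_ret _ _ (SAI c I) _ h1
    intro x _
    by_cases h1 : x.1 = I
    · cases h2 : x.2
      · simp [sh, ex, chi, h1, h2, hμ]
      · simp [sh, ex, chi, h1, h2]
    · by_cases h3 : x.2 = false ∧ IsMn x.1 μ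
      · simp [sh, ex, chi, h1, h3]
      · simp [sh, ex, chi, h1, h3]
  have e2 : ((ex I).comp (psi μ)) p.2 = (1 : FreeGroup (BY k) →* Multiplicative ℤ) p.2 := by
    apply eq_of_ret _ _ (SYI c I) _ h2
    intro x hx
    have hxI : x.1 ≠ I := by
      intro h
      exact hx.2.2.2.2 (h ▸ hx.2.2.1)
    by_cases h3 : IsMn x.1 μ
    · simp [ex, psi, h3, hxI]
    · simp [psi, h3]
  rw [e1]
  change (ex I) (chi μ p.1) = 1
  rw [h3]
  exact e2

theorem act_zpow_a (I : Finset (Fin k)) (m n x : ℤ) :
    act I (of ((I, false) : BA k) ^ m) (n, x) = (n + m, x) := by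
  have h0 : act I (of ((I, false) : BA k)) = permA := by simp [act]
  have hnat : ∀ (m : ℕ) (n x : ℤ), (permA ^ m) (n, x) = (n + m, x) := by
    intro m
    induction m with
    | zero => intro n x; simp
    | succ m ih =>
      intro n x
      rw [pow_succ, Equiv.Perm.mul_apply]
      have : permA (n, x) = (n + 1, x) := rfl
      rw [this, ih]
      congr 1
      push_cast; ring
  rw [map_zpow, h0]
  obtain ⟨j, rfl | rfl⟩ := m.eq_nat_or_neg
  · rw [zpow_natCast]; exact hnat j n x
  · rw [zpow_neg, zpow_natCast, Equiv.Perm.inv_eq_iff_eq, hnat]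
    congr 1
    ring

/-- the non finitely generated case -/
theorem nonfg_case (I : Finset (Fin k)) (μ : Fin k) (hμ : IsMn I μ) (hc : c I) :
    ¬ (Fib (SAI c I) (SYI c I) μ).FG := by
  rintro ⟨T, hT⟩
  have hfar : ∀ p : FreeGroup (BA k) × FreeGroup (BY k), ∃ N, Far I N p.1 :=
    fun p => exists_far I p.1
  choose N hN using hfar
  obtain ⟨M, hM⟩ : ∃ M : ℤ, ∀ p ∈ T, N p ≤ M := by
    obtain ⟨M, hM⟩ := (T.image N).bddAbove
    exact ⟨M, fun p hp => hM (by
      rw [Finset.coe_image]; exact ⟨p, hp, rfl⟩)⟩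
  set M' := max M 0 with hM'
  have hall : ∀ p ∈ Fib (SAI c I) (SYI c I) μ, Far I M' p.1 := by
    intro p hp
    rw [← hT] at hp
    induction hp using Subgroup.closure_induction with
    | mem x hx => exact far_mono ((hM x hx).trans (le_max_left _ _)) (hN x)
    | one => intro n x _; simp
    | mul x y hx hy h1 h2 =>
      rw [hT] at hx hy
      have e := sh_zero c I μ hμ hy
      have := far_mul h1 h2
      rw [e, toAdd_one, abs_zero, add_zero, max_self] at this
      exact this
    | inv x hx h1 =>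
      rw [hT] at hx
      have e := sh_zero c I μ hμ hx
      have := far_inv h1
      rw [e, toAdd_one, abs_zero, add_zero] at this
      exact this
  -- the bad element
  set w : FreeGroup (BA k) := of (I, false) ^ (M' + 1) * of (I, true) * (of (I, false) ^ (M' + 1))⁻¹
    with hw
  have hwm : ((w, 1) : FreeGroup (BA k) × FreeGroup (BY k)) ∈ Fib (SAI c I) (SYI c I) μ := by
    have ha : ((I, false) : BA k) ∈ SAI c I := ⟨hc, subset_rfl⟩
    have hb : ((I, true) : BA k) ∈ SAI c I := ⟨hc, subset_rfl⟩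
    refine ⟨?_, by simp, ?_⟩
    · change ret (SAI c I) w = w
      rw [hw, map_mul, map_mul, map_inv, map_zpow, ret_of_mem ha, ret_of_mem hb]
    · change chi μ w = psi μ 1
      have h1 : chi μ (of ((I, true) : BA k)) = 1 := by simp [chi]
      rw [hw, map_mul, map_mul, map_inv, h1, mul_one, mul_inv_cancel, map_one]
  have h1 := hall _ hwm (M' + 1) 0 (by
    have : 0 ≤ M' := le_max_right _ _
    rw [abs_of_nonneg (by linarith)]; linarith)
  have h2 := sh_zero c I μ hμ hwm
  simp only at h1 h2
  rw [h2, toAdd_one, add_zero] at h1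
  rw [hw, map_mul, map_mul, Equiv.Perm.mul_apply, Equiv.Perm.mul_apply] at h1
  have h3 : act I ((of ((I, false) : BA k) ^ (M' + 1))⁻¹) (M' + 1, 0) = (0, 0) := by
    rw [← zpow_neg, act_zpow_a]
    congr 1; ring
  have h4 : act I (of ((I, true) : BA k)) = permB := by simp [act]
  rw [h3, h4] at h1
  have h5 : permB (0, 0) = (0, 1) := by simp [permB]
  rw [h5, act_zpow_a] at h1
  have := congrArg Prod.snd h1
  simp at this

/-- every configuration is realized by `HH` -/
theorem realize (I : Finset (Fin k)) (hI : I.Nonempty) :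
    (⨅ i ∈ I, HH c i).FG ↔ ¬ c I := by
  have hμ : IsMn I (I.min' hI) := ⟨I.min'_mem hI, fun l hl => I.min'_le l hl⟩
  rw [inter_eq c I _ hμ]
  constructor
  · intro h hc
    exact nonfg_case c I _ hμ hc h
  · exact fg_case c I _ hμ

end Main

end Q151.IFull
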