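import Mathlib

/-!
Realization of intersection configurations in a product of two free groups (`MP_d567b2_al`).
-/

namespace Q151.IFull

open FreeGroup (of)

section Retract

variable {α : Type*}

open Classical in
/-- the retraction of a free group onto the subgroup generated by `S` -/
noncomputable def ret (S : Set α) : FreeGroup α →* FreeGroup α :=
  FreeGroup.lift fun x => if x ∈ S then of x else 1

theorem ret_of_mem {S : Set α} {x : α} (h : x ∈ S) : ret S (of x) = of x := by
  simp [ret, h]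

theorem ret_of_not_mem {S : Set α} {x : α} (h : x ∉ S) : ret S (of x) = 1 := by
  simp [ret, h]

theorem ret_ret (S T : Set α) (w : FreeGroup α) : ret S (ret T w) = ret (S ∩ T) w := by
  have : (ret S).comp (ret T) = ret (S ∩ T) := by
    ext x
    by_cases hT : x ∈ T
    · by_cases hS : x ∈ S
      · simp [ret_of_mem hT, ret_of_mem hS, ret_of_mem (show x ∈ S ∩ T from ⟨hS, hT⟩)]
      · simp [ret_of_mem hT, ret_of_not_mem hS, ret_of_not_mem (show x ∉ S ∩ T from fun h => hS h.1)]
    · simp [ret_of_not_mem hT, ret_of_not_mem (show x ∉ S ∩ T from fun h => hT h.2)]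
  exact congrArg (fun f => f w) this

theorem ret_ret_self (S : Set α) (w : FreeGroup α) : ret S (ret S w) = ret S w := by
  rw [ret_ret, Set.inter_self]

theorem ret_mono {S T : Set α} (h : S ⊆ T) {w : FreeGroup α} (hw : ret S w = w) : ret T w = w := by
  rw [← hw, ret_ret, Set.inter_eq_right.mpr h]

theorem ret_univ (w : FreeGroup α) : ret Set.univ w = w := by
  have : ret (Set.univ : Set α) = MonoidHom.id _ := by
    ext x; simp [ret]
  rw [this]; rfl

theorem ret_biInter {ι : Type*} (I : Finset ι) (S : ι → Set α) (w : FreeGroup α)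
    (h : ∀ i ∈ I, ret (S i) w = w) : ret (⋂ i ∈ I, S i) w = w := by
  classical
  induction I using Finset.induction_on with
  | empty => simpa using ret_univ w
  | insert a I ha ih =>
    rw [Finset.set_biInter_insert]
    have h1 := ih (fun i hi => h i (Finset.mem_insert_of_mem hi))
    have h2 := h a (Finset.mem_insert_self a I)
    rw [← ret_ret, h1, h2]

/-- two homs which agree on `S`-generators agree on `ret S`-fixed words -/
theorem eq_of_ret {M : Type*} [Group M] (f g : FreeGroup α →* M) (S : Set α)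
    (h : ∀ x ∈ S, f (of x) = g (of x)) {w : FreeGroup α} (hw : ret S w = w) : f w = g w := by
  have : f.comp (ret S) = g.comp (ret S) := by
    ext x
    by_cases hx : x ∈ S
    · simp [ret_of_mem hx, h x hx]
    · simp [ret_of_not_mem hx]
  rw [← hw]
  exact congrArg (fun f => f w) this

end Retract

section Main

variable {k : ℕ} (c : Finset (Fin k) → Prop)

/-- `i` is the least element of `J` -/
def IsMn (J : Finset (Fin k)) (i : Fin k) : Prop := i ∈ J ∧ ∀ l ∈ J, i ≤ l

/-- basis of the first factor: `(J, false) = a_J`, `(J, true) = b_J` -/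
abbrev BA (k : ℕ) := Finset (Fin k) × Bool

/-- basis of the second factor: `(J, l) = y_{J,l}` -/
abbrev BY (k : ℕ) := Finset (Fin k) × Fin k

open Classical in
/-- `χ_i` -/
noncomputable def chi (i : Fin k) : FreeGroup (BA k) →* FreeGroup (Finset (Fin k)) :=
  FreeGroup.lift fun x => if x.2 = false ∧ IsMn x.1 i then of x.1 else 1

open Classical in
/-- `ψ_i` -/
noncomputable def psi (i : Fin k) : FreeGroup (BY k) →* FreeGroup (Finset (Fin k)) :=
  FreeGroup.lift fun x => if IsMn x.1 i then of x.1 else 1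

/-- generators of the first coordinate of `H_i` -/
def SA (i : Fin k) : Set (BA k) := {x | c x.1 ∧ i ∈ x.1}

/-- generators of the second coordinate of `H_i` -/
def SY (i : Fin k) : Set (BY k) := {x | c x.1 ∧ i ∈ x.1 ∧ x.2 ∈ x.1 ∧ ¬ IsMn x.1 x.2 ∧ x.2 ≠ i}

/-- general fibre product -/
noncomputable def Fib (S : Set (BA k)) (T : Set (BY k)) (i : Fin k) :
    Subgroup (FreeGroup (BA k) × FreeGroup (BY k)) where
  carrier := {p | ret S p.1 = p.1 ∧ ret T p.2 = p.2 ∧ chi i p.1 = psi i p.2}
  mul_mem' := by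
    rintro p q ⟨h1, h2, h3⟩ ⟨h4, h5, h6⟩
    refine ⟨?_, ?_, ?_⟩
    · rw [Prod.fst_mul, map_mul, h1, h4]
    · rw [Prod.snd_mul, map_mul, h2, h5]
    · rw [Prod.fst_mul, Prod.snd_mul, map_mul, map_mul, h3, h6]
  one_mem' := by simp
  inv_mem' := by
    rintro p ⟨h1, h2, h3⟩
    refine ⟨?_, ?_, ?_⟩
    · rw [Prod.fst_inv, map_inv, h1]
    · rw [Prod.snd_inv, map_inv, h2]
    · rw [Prod.fst_inv, Prod.snd_inv, map_inv, map_inv, h3]

/-- the family `H_i` -/
noncomputable def HH (i : Fin k) : Subgroup (FreeGroup (BA k) × FreeGroup (BY k)) :=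
  Fib (SA c i) (SY c i) i

/-- generators for `I` -/
def SAI (I : Finset (Fin k)) : Set (BA k) := {x | c x.1 ∧ I ⊆ x.1}

/-- generators for `I` -/
def SYI (I : Finset (Fin k)) : Set (BY k) :=
  {x | c x.1 ∧ I ⊆ x.1 ∧ x.2 ∈ x.1 ∧ ¬ IsMn x.1 x.2 ∧ x.2 ∉ I}

theorem inter_eq (I : Finset (Fin k)) (μ : Fin k) (hμ : IsMn I μ) :
    (⨅ i ∈ I, HH c i) = Fib (SAI c I) (SYI c I) μ := by
  have hS : (⋂ i ∈ I, SA c i) = SAI c I := by
    ext x
    simp only [Set.mem_iInter, SA, SAI, Set.mem_setOf_eq]
    constructor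
    · intro h
      exact ⟨(h μ hμ.1).1, fun i hi => (h i hi).2⟩
    · rintro ⟨h1, h2⟩ i hi
      exact ⟨h1, h2 hi⟩
  have hT : (⋂ i ∈ I, SY c i) = SYI c I := by
    ext x
    simp only [Set.mem_iInter, SY, SYI, Set.mem_setOf_eq]
    constructor
    · intro h
      obtain ⟨h1, h2, h3, h4, h5⟩ := h μ hμ.1
      exact ⟨h1, fun i hi => (h i hi).2.1, h3, h4, fun hx => (h x.2 hx).2.2.2.2 rfl⟩
    · rintro ⟨h1, h2, h3, h4, h5⟩ i hi
      exact ⟨h1, h2 hi, h3, h4, fun hx => h5 (hx ▸ hi)⟩
  have hSsub : ∀ i ∈ I, SAI c I ⊆ SA c i := fun i hi x hx => ⟨hx.1, hx.2 hi⟩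
  have hTsub : ∀ i ∈ I, SYI c I ⊆ SY c i := fun i hi x hx =>
    ⟨hx.1, hx.2.1 hi, hx.2.2.1, hx.2.2.2.1, fun h => hx.2.2.2.2 (h ▸ hi)⟩
  ext p
  simp only [Subgroup.mem_iInf]
  constructor
  · intro h
    refine ⟨?_, ?_, (h μ hμ.1).2.2⟩
    · rw [← hS]; exact ret_biInter I _ _ (fun i hi => (h i hi).1)
    · rw [← hT]; exact ret_biInter I _ _ (fun i hi => (h i hi).2.1)
  · rintro ⟨h1, h2, h3⟩ i hi
    refine ⟨ret_mono (hSsub i hi) h1, ret_mono (hTsub i hi) h2, ?_⟩
    by_cases hiμ : i = μ
    · rw [hiμ]; exact h3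
    · have hno : ∀ J : Finset (Fin k), I ⊆ J → ¬ IsMn J i := by
        intro J hIJ hm
        exact hiμ (le_antisymm (hm.2 μ (hIJ hμ.1)) (hμ.2 i hi))
      have e1 : chi i p.1 = (1 : FreeGroup (BA k) →* FreeGroup (Finset (Fin k))) p.1 := by
        apply eq_of_ret _ _ (SAI c I) _ h1
        intro x hx
        simp [chi, hno x.1 hx.2]
      have e2 : psi i p.2 = (1 : FreeGroup (BY k) →* FreeGroup (Finset (Fin k))) p.2 := by
        apply eq_of_ret _ _ (SYI c I) _ h2
        intro x hx
        simp [psi, hno x.1 hx.2.1]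
      rw [e1, e2]; rfl

open Classical in
/-- the finitely generated case -/
theorem fg_case (I : Finset (Fin k)) (μ : Fin k) (hμ : IsMn I μ) (hc : ¬ c I) :
    (Fib (SAI c I) (SYI c I) μ).FG := by
  have hl : ∀ J : Finset (Fin k), c J ∧ I ⊆ J → ∃ l ∈ J, l ∉ I := by
    rintro J ⟨h1, h2⟩
    by_contra hno
    push Not at hno
    have : J = I := Finset.Subset.antisymm hno h2
    exact hc (this ▸ h1)
  haveI : Nonempty (Fin k) := ⟨μ⟩
  choose! l hlJ hlI using hl
  let σ : FreeGroup (Finset (Fin k)) →* FreeGroup (BY k) := FreeGroup.lift fun J => of (J, l J)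
  let τ : FreeGroup (Finset (Fin k)) →* FreeGroup (BA k) := FreeGroup.lift fun J => of (J, false)
  let r := ret (SAI c I)
  let r' := ret (SYI c I)
  let g1 : FreeGroup (BA k) →* FreeGroup (BA k) × FreeGroup (BY k) :=
    r.prod (σ.comp ((chi μ).comp r))
  let g2 : FreeGroup (BY k) →* FreeGroup (BA k) × FreeGroup (BY k) :=
    (τ.comp ((psi μ).comp r')).prod r'
  have hmn : ∀ J, c J ∧ I ⊆ J → IsMn J μ → ¬ IsMn J (l J) := by
    intro J hJ h1 h2
    have : l J = μ := le_antisymm (h2.2 μ h1.1) (h1.2 _ h2.1)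
    exact hlI J hJ (this ▸ hμ.1)
  have hE : Fib (SAI c I) (SYI c I) μ = g1.range ⊔ g2.range := by
    apply le_antisymm
    · rintro ⟨w, z⟩ ⟨h1, h2, h3⟩
      simp only at h1 h2 h3
      have hg2 : g2 z = (τ (psi μ z), z) := by
        change (τ (psi μ (ret (SYI c I) z)), ret (SYI c I) z) = _
        rw [h2]
      -- n = w * (τ ψ z)⁻¹
      have hτr : ret (SAI c I) (τ (psi μ z)) = τ (psi μ z) := by
        have : ((ret (SAI c I)).comp (τ.comp (psi μ))) z = (τ.comp (psi μ)) z := by
          apply eq_of_ret _ _ (SYI c I) _ h2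
          intro x hx
          by_cases hm : IsMn x.1 μ
          · have hx' : ((x.1, false) : BA k) ∈ SAI c I := ⟨hx.1, hx.2.1⟩
            simp [psi, τ, hm, ret_of_mem hx']
          · simp [psi, hm]
        exact this
      have hχτ : chi μ (τ (psi μ z)) = psi μ z := by
        have : ((chi μ).comp (τ.comp (psi μ))) z = (psi μ) z := by
          apply eq_of_ret _ _ (SYI c I) _ h2
          intro x hx
          by_cases hm : IsMn x.1 μ
          · simp [psi, chi, τ, hm]
          · simp [psi, hm]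
        exact this
      have hg1 : g1 (w * (τ (psi μ z))⁻¹) = (w * (τ (psi μ z))⁻¹, 1) := by
        have hr : ret (SAI c I) (w * (τ (psi μ z))⁻¹) = w * (τ (psi μ z))⁻¹ := by
          rw [map_mul, map_inv, h1, hτr]
        change (ret (SAI c I) (w * (τ (psi μ z))⁻¹), σ (chi μ (ret (SAI c I) (w * (τ (psi μ z))⁻¹)))) = _
        rw [hr, map_mul (chi μ), map_inv (chi μ), hχτ, h3, mul_inv_cancel, map_one]
      have e : ((w, z) : FreeGroup (BA k) × FreeGroup (BY k)) =
          g1 (w * (τ (psi μ z))⁻¹) * g2 z := by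
        rw [hg1, hg2, Prod.mk_mul_mk, one_mul, inv_mul_cancel_right]
      rw [e]
      exact Subgroup.mul_mem_sup ⟨_, rfl⟩ ⟨_, rfl⟩
    · apply sup_le
      · rintro _ ⟨w, rfl⟩
        refine ⟨ret_ret_self _ w, ?_, ?_⟩
        · change ret (SYI c I) (σ (chi μ (ret (SAI c I) w))) = σ (chi μ (ret (SAI c I) w))
          have : ((ret (SYI c I)).comp (σ.comp (chi μ))) (ret (SAI c I) w) =
              (σ.comp (chi μ)) (ret (SAI c I) w) := by
            apply eq_of_ret _ _ (SAI c I) _ (ret_ret_self _ w)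
            intro x hx
            by_cases hm : x.2 = false ∧ IsMn x.1 μ
            · have hx' : ((x.1, l x.1) : BY k) ∈ SYI c I :=
                ⟨hx.1, hx.2, hlJ _ hx, hmn _ hx hm.2, hlI _ hx⟩
              simp [chi, σ, hm, ret_of_mem hx']
            · simp [chi, hm]
          exact this
        · change chi μ (ret (SAI c I) w) = psi μ (σ (chi μ (ret (SAI c I) w)))
          have : (chi μ) (ret (SAI c I) w) = ((psi μ).comp (σ.comp (chi μ))) (ret (SAI c I) w) := by
            apply eq_of_ret _ _ (SAI c I) _ (ret_ret_self _ w)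
            intro x hx
            by_cases hm : x.2 = false ∧ IsMn x.1 μ
            · simp [chi, σ, hm, psi]
            · simp [chi, hm]
          exact this
      · rintro _ ⟨z, rfl⟩
        refine ⟨?_, ret_ret_self _ z, ?_⟩
        · change ret (SAI c I) (τ (psi μ (ret (SYI c I) z))) = τ (psi μ (ret (SYI c I) z))
          have : ((ret (SAI c I)).comp (τ.comp (psi μ))) (ret (SYI c I) z) =
              (τ.comp (psi μ)) (ret (SYI c I) z) := by
            apply eq_of_ret _ _ (SYI c I) _ (ret_ret_self _ z)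
            intro x hx
            by_cases hm : IsMn x.1 μ
            · have hx' : ((x.1, false) : BA k) ∈ SAI c I := ⟨hx.1, hx.2.1⟩
              simp [psi, τ, hm, ret_of_mem hx']
            · simp [psi, hm]
          exact this
        · change chi μ (τ (psi μ (ret (SYI c I) z))) = psi μ (ret (SYI c I) z)
          have : ((chi μ).comp (τ.comp (psi μ))) (ret (SYI c I) z) =
              (psi μ) (ret (SYI c I) z) := by
            apply eq_of_ret _ _ (SYI c I) _ (ret_ret_self _ z)
            intro x hx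
            by_cases hm : IsMn x.1 μ
            · simp [psi, chi, τ, hm]
            · simp [psi, hm]
          exact this
  rw [hE]
  have f1 : g1.range.FG := (Group.fg_iff_subgroup_fg _).mp inferInstance
  have f2 : g2.range.FG := (Group.fg_iff_subgroup_fg _).mp inferInstance
  exact f1.sup f2

end Main

end Q151.IFull
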